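import Pool.Agent.K3h75.NW.StmN
import Pool.Agent.K3h36.ND.GND

/-!
# Project NW, brick GNDW: generic pencils of coverings have only nondegenerate singular points

Adaptation of `Pool/Agent/K3h36/ND/GND.lean` (helper36) to weighted forms.
-/

set_option autoImplicit false

namespace Pool.Agent.K3h64.NW

open MvPolynomial Pool.Agent.R187.WC Pool.Agent.K3h75.NW Pool.Agent.K3h36.ND

section

variable {σ κ : Type} [Fintype σ] [Fintype κ] {L : Type} [Field L] (x : σ → L)
  (ex : κ → σ →₀ ℕ)

/-- The polynomial with the exponents `ex t` and the coefficients `a t`. -/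
noncomputable def FF (a : κ → L) : MvPolynomial σ L := ∑ t, monomial (ex t) (a t)

theorem mono_eq (t : σ →₀ ℕ) (a : L) :
    monomial t a = C a * map (Int.castRingHom L) (monomial t 1) := by
  rw [map_monomial, C_mul_monomial, map_one, mul_one]

theorem eval_FF (a : κ → L) :
    eval x (FF ex a) = ∑ t, a t * aeval x (monomial (ex t) (1 : ℤ)) := by
  rw [FF, map_sum]
  refine Finset.sum_congr rfl fun t _ => ?_
  rw [mono_eq, map_mul, eval_C, eval_map, aeval_def]
  rfl

theorem eval_FF1 (a : κ → L) (i : σ) :
    eval x (pderiv i (FF ex a)) = ∑ t, a t * aeval x (pderiv i (monomial (ex t) (1 : ℤ))) := by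
  rw [FF, map_sum, map_sum]
  refine Finset.sum_congr rfl fun t _ => ?_
  rw [mono_eq, pderiv_C_mul, pderiv_map, map_mul, eval_C, eval_map, aeval_def]
  rfl

theorem eval_FF2 (a : κ → L) (i j : σ) :
    eval x (pderiv j (pderiv i (FF ex a))) =
      ∑ t, a t * aeval x (pderiv j (pderiv i (monomial (ex t) (1 : ℤ)))) := by
  rw [FF, map_sum, map_sum, map_sum]
  refine Finset.sum_congr rfl fun t _ => ?_
  rw [mono_eq, pderiv_C_mul, pderiv_map, pderiv_C_mul, pderiv_map, map_mul, eval_C, eval_map,
    aeval_def]
  rfl

/-- The derivative of a value of a form. -/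
theorem der_FF (D : Derivation ℤ L L) (a : κ → L) :
    D (eval x (FF ex a)) = ∑ t, D (a t) * aeval x (monomial (ex t) (1 : ℤ)) +
      ∑ j, eval x (pderiv j (FF ex a)) * D (x j) := by
  rw [eval_FF, map_sum]
  have h1 : ∀ t : κ, D (a t * aeval x (monomial (ex t) (1 : ℤ))) =
      D (a t) * aeval x (monomial (ex t) (1 : ℤ)) +
        ∑ j, a t * aeval x (pderiv j (monomial (ex t) (1 : ℤ))) * D (x j) := by
    intro t
    rw [Derivation.leibniz, der_aeval, smul_eq_mul, smul_eq_mul, Finset.mul_sum, add_comm,
      mul_comm (D (a t))]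
    congr 1
    exact Finset.sum_congr rfl fun j _ => by ring
  rw [Finset.sum_congr rfl fun t _ => h1 t, Finset.sum_add_distrib]
  congr 1
  rw [Finset.sum_comm]
  refine Finset.sum_congr rfl fun j _ => ?_
  rw [eval_FF1, Finset.sum_mul]

theorem der_FF1 (D : Derivation ℤ L L) (a : κ → L) (i : σ) :
    D (eval x (pderiv i (FF ex a))) = ∑ t, D (a t) * aeval x (pderiv i (monomial (ex t) (1 : ℤ))) +
      ∑ j, eval x (pderiv j (pderiv i (FF ex a))) * D (x j) := by
  rw [eval_FF1, map_sum]
  have h1 : ∀ t : κ, D (a t * aeval x (pderiv i (monomial (ex t) (1 : ℤ)))) =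
      D (a t) * aeval x (pderiv i (monomial (ex t) (1 : ℤ))) +
        ∑ j, a t * aeval x (pderiv j (pderiv i (monomial (ex t) (1 : ℤ)))) * D (x j) := by
    intro t
    rw [Derivation.leibniz, der_aeval, smul_eq_mul, smul_eq_mul, Finset.mul_sum, add_comm,
      mul_comm (D (a t))]
    congr 1
    exact Finset.sum_congr rfl fun j _ => by ring
  rw [Finset.sum_congr rfl fun t _ => h1 t, Finset.sum_add_distrib]
  congr 1
  rw [Finset.sum_comm]
  refine Finset.sum_congr rfl fun j _ => ?_
  rw [eval_FF2, Finset.sum_mul]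

end

/-- The exponents of the weighted form. -/
noncomputable def exW (N e m : ℕ) : Option (CoefW N e m) → Option (Fin (N + 1)) →₀ ℕ :=
  fun t => t.elim (Finsupp.single none m) fun s => s.1

/-- The coefficients of the weighted form. -/
noncomputable def coW {N e m : ℕ} {L : Type} [Field L] (a : CoefW N e m → L) :
    Option (CoefW N e m) → L := fun t => t.elim 1 a

theorem wform_eq {N e m : ℕ} {L : Type} [Field L] (a : CoefW N e m → L) :
    wform a = FF (exW N e m) (coW a) := by
  rw [wform, FF, Fintype.sum_option, X_pow_eq_monomial]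
  rfl

theorem wform_homog {N e m : ℕ} {L : Type} [Field L] (a : CoefW N e m → L) :
    (wform a).IsWeightedHomogeneous (wt e) (m * e) := by
  rw [wform_eq, FF]
  refine IsWeightedHomogeneous.sum _ _ _ fun t _ => ?_
  apply isWeightedHomogeneous_monomial
  rcases t with _ | s
  · show Finsupp.weight (wt e) (Finsupp.single none m) = m * e
    rw [weight_eq]
    simp
  · exact s.2.1

section

variable {N e m : ℕ} {L : Type} [Field L] (x : Option (Fin (N + 1)) → L)

/-- Euler -/
theorem eulerW0 (a : CoefW N e m → L) :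
    ∑ i, (wt e i : L) * (x i * eval x (pderiv i (wform a))) = ((m * e : ℕ) : L) *
      eval x (wform a) := by
  have h := congrArg (eval x) (wform_homog a).sum_weight_X_mul_pderiv
  rw [map_sum, nsmul_eq_mul, map_mul, map_natCast] at h
  rw [← h]
  refine Finset.sum_congr rfl fun i _ => ?_
  rw [nsmul_eq_mul, map_mul, map_mul, eval_X, map_natCast]

theorem eulerW1 (he : 1 ≤ e) (hm : 1 ≤ m) (a : CoefW N e m → L) (i : Option (Fin (N + 1))) :
    ∑ j, (wt e j : L) * (x j * eval x (pderiv j (pderiv i (wform a)))) =
      ((m * e - wt e i : ℕ) : L) * eval x (pderiv i (wform a)) := by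
  have hle : wt e i ≤ m * e := by
    rcases i with _ | j
    · rw [wt_none]; nlinarith
    · rw [wt_some]; nlinarith
  have h0 : (pderiv i (wform a)).IsWeightedHomogeneous (wt e) (m * e - wt e i) :=
    (wform_homog a).pderiv (by omega)
  have h := congrArg (eval x) h0.sum_weight_X_mul_pderiv
  rw [map_sum, nsmul_eq_mul, map_mul, map_natCast] at h
  rw [← h]
  refine Finset.sum_congr rfl fun j _ => ?_
  rw [nsmul_eq_mul, map_mul, map_mul, eval_X, map_natCast]

end

/-- The derivative of the coefficients of the pencil. -/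
theorem sum_derW {N e m : ℕ} {L : Type} [Field L] (D : Derivation ℤ L L) (B : IdxW N e m → L)
    (c : L) (t : IdxW N e m) (ht : D (B t) = 1) (ht' : ∀ t', t' ≠ t → D (B t') = 0)
    (V : CoefW N e m → L) (T : L)
    (hT : by classical exact T = ∑ t', if IsPowW t' then V t' else 0) :
    ∑ t', D (pcoefW B c t') * V t' = V t.1 + D c * T := by
  classical
  have h1 : ∀ t', D (pcoefW B c t') * V t' =
      (if t' = t.1 then V t' else 0) + D c * (if IsPowW t' then V t' else 0) := by
    intro t'
    rw [pcoefW, map_add, add_mul]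
    congr 1
    · by_cases h : IsFirstW t'
      · rw [dif_pos h, map_zero, zero_mul, if_neg]
        rintro rfl
        exact t.2 h
      · rw [dif_neg h]
        by_cases h2 : t' = t.1
        · rw [if_pos h2]
          have h3 : (⟨t', h⟩ : IdxW N e m) = t := Subtype.ext h2
          rw [h3, ht, one_mul]
        · have h4 : D (B ⟨t', h⟩) = 0 := ht' _ fun h3 => h2 (congrArg Subtype.val h3)
          rw [if_neg h2, h4, zero_mul]
    · by_cases h : IsPowW t'
      · rw [if_pos h, if_pos h]
      · rw [if_neg h, if_neg h, map_zero, zero_mul, mul_zero]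
  rw [Finset.sum_congr rfl fun t' _ => h1 t', Finset.sum_add_distrib, ← Finset.mul_sum,
    Finset.sum_ite_eq', if_pos (Finset.mem_univ _), hT]

/-- The coefficient of `w ^ m` is constant. -/
theorem sum_derW' {N e m : ℕ} {L : Type} [Field L] (D : Derivation ℤ L L) (a : CoefW N e m → L)
    (V : Option (CoefW N e m) → L) :
    ∑ t, D (coW a t) * V t = ∑ t, D (a t) * V (some t) := by
  rw [Fintype.sum_option]
  have h1 : D (coW a none) = 0 := by
    show D 1 = 0
    exact D.map_one_eq_zero
  rw [h1, zero_mul, zero_add]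
  rfl

theorem t_GNDW : S_GNDW := by
  classical
  intro N e m he hm2 L _ _ _ c x s hxs hf hdet0
  have hinj : Function.Injective (Int.castRingHom L) := by
    have h1 : Int.castRingHom L =
        ((algebraMap (FractionRing (MvPolynomial (IdxW N e m) ℤ)) L).comp
        (algebraMap (MvPolynomial (IdxW N e m) ℤ)
          (FractionRing (MvPolynomial (IdxW N e m) ℤ)))).comp (MvPolynomial.C) :=
      RingHom.ext_int _ _
    rw [h1]
    exact ((algebraMap (FractionRing (MvPolynomial (IdxW N e m) ℤ)) L).injective.comp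
      (IsFractionRing.injective (MvPolynomial (IdxW N e m) ℤ) _)).comp
        (MvPolynomial.C_injective _ ℤ)
  have hchar : CharZero L := by
    refine ⟨fun a b hab => ?_⟩
    have h2 : Int.castRingHom L (a : ℤ) = Int.castRingHom L (b : ℤ) := by
      rw [map_natCast, map_natCast]; exact hab
    exact_mod_cast hinj h2
  set B : IdxW N e m → L := fun t => algebraMap (FractionRing (MvPolynomial (IdxW N e m) ℤ)) L
    (algebraMap (MvPolynomial (IdxW N e m) ℤ) _ (X t)) with hB
  have hd1 : 2 ≤ m * e := by nlinarith
  have hd0 : ((m * e : ℕ) : L) ≠ 0 := by exact_mod_cast (by omega : m * e ≠ 0)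
  have hf' : ∀ j, eval x (pderiv j (wform (pcoefW B c))) = 0 := hf
  have hG0 : eval x (wform (pcoefW B c)) = 0 := by
    have h1 := eulerW0 x (pcoefW B c)
    have h2 : ∑ i, (wt e i : L) * (x i * eval x (pderiv i (wform (pcoefW B c)))) = 0 :=
      Finset.sum_eq_zero fun i _ => by rw [hf' i, mul_zero, mul_zero]
    rw [h2] at h1
    exact (mul_eq_zero.mp h1.symm).resolve_left hd0
  -- the vector `u`
  obtain ⟨u₀, hu₀, hu₁⟩ := Matrix.exists_mulVec_eq_zero_iff.mpr hdet0
  set u : Option (Fin (N + 1)) → L := fun i => if h : i ≠ some s then u₀ ⟨i, h⟩ else 0 with hu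
  have hus : u (some s) = 0 := by rw [hu]; simp
  have hHu : ∀ j, ∑ i, eval x (pderiv j (pderiv i (wform (pcoefW B c)))) * u i = 0 := by
    have h1 : ∀ j, j ≠ some s →
        ∑ i, eval x (pderiv j (pderiv i (wform (pcoefW B c)))) * u i = 0 := by
      intro j hj
      have h2 := congrFun hu₁ ⟨j, hj⟩
      rw [Matrix.mulVec, dotProduct] at h2
      rw [← Fintype.sum_subtype_add_sum_subtype (fun i => i ≠ some s)]
      have h3 : ∑ i : {i // ¬ i ≠ some s},
          eval x (pderiv j (pderiv i.1 (wform (pcoefW B c)))) * u i.1 = 0 := by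
        refine Finset.sum_eq_zero fun i _ => ?_
        rw [not_not.mp i.2, hus, mul_zero]
      rw [Pi.zero_apply] at h2
      rw [h3, add_zero, ← h2]
      refine Finset.sum_congr rfl fun i _ => ?_
      rw [hu]
      simp only
      rw [dif_pos i.2]
      rfl
    intro j
    by_cases hj : j = some s
    · subst hj
      have h3 : ∑ j', (wt e j' : L) * (x j' *
          ∑ i, eval x (pderiv j' (pderiv i (wform (pcoefW B c)))) * u i) = 0 := by
        simp_rw [Finset.mul_sum]
        rw [Finset.sum_comm]
        refine Finset.sum_eq_zero fun i _ => ?_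
        have h4 := eulerW1 x he (by omega) (pcoefW B c) i
        rw [hf' i, mul_zero] at h4
        rw [← mul_zero (u i), ← h4, Finset.mul_sum]
        exact Finset.sum_congr rfl fun j' _ => by ring
      rw [Finset.sum_eq_single (some s)] at h3
      · rwa [hxs, one_mul, wt_some, Nat.cast_one, one_mul] at h3
      · intro i _ hi
        rw [h1 i hi, mul_zero, mul_zero]
      · intro h; exact absurd (Finset.mem_univ _) h
    · exact h1 j hj
  -- the functions `E` and `W`
  set E : CoefW N e m → L := fun t => aeval x (monomial t.1 (1 : ℤ)) with hE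
  set W : CoefW N e m → L := fun t => ∑ i, u i * aeval x (pderiv i (monomial t.1 (1 : ℤ)))
    with hW
  set T : L := ∑ t', if IsPowW t' then E t' else 0 with hT
  set TW : L := ∑ t', if IsPowW t' then W t' else 0 with hTW
  have key : ∀ t : IdxW N e m, ∃ τ : L, E t.1 = τ * T ∧ W t.1 = τ * TW := by
    intro t
    obtain ⟨D, hD⟩ := exists_der (ι := IdxW N e m) L (fun t' => if t' = t then 1 else 0)
    have hDt : D (B t) = 1 := by rw [hB]; simp only; rw [hD, if_pos rfl]
    have hDt' : ∀ t', t' ≠ t → D (B t') = 0 := by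
      intro t' h
      rw [hB]; simp only; rw [hD, if_neg h]
    have h1 : E t.1 + D c * T = 0 := by
      rw [← sum_derW D B c t hDt hDt' E T hT]
      have h2 := der_FF x (exW N e m) D (coW (pcoefW B c))
      rw [← wform_eq, hG0, map_zero] at h2
      have h4 : ∑ j, eval x (pderiv j (wform (pcoefW B c))) * D (x j) = 0 :=
        Finset.sum_eq_zero fun j _ => by rw [hf' j, zero_mul]
      rw [h4, add_zero, sum_derW' D (pcoefW B c)
        (fun t => aeval x (monomial (exW N e m t) (1 : ℤ)))] at h2
      exact h2.symm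
    have h2 : W t.1 + D c * TW = 0 := by
      rw [← sum_derW D B c t hDt hDt' W TW hTW]
      have h3 : ∀ i, u i * (∑ t, D (pcoefW B c t) * aeval x (pderiv i (monomial t.1 (1 : ℤ))) +
          ∑ j, eval x (pderiv j (pderiv i (wform (pcoefW B c)))) * D (x j)) = 0 := by
        intro i
        have h6 := der_FF1 x (exW N e m) D (coW (pcoefW B c)) i
        rw [← wform_eq, sum_derW' D (pcoefW B c)
          (fun t => aeval x (pderiv i (monomial (exW N e m t) (1 : ℤ)))), hf' i, map_zero] at h6
        have h7 : ∑ t, D (pcoefW B c t) * aeval x (pderiv i (monomial t.1 (1 : ℤ))) +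
            ∑ j, eval x (pderiv j (pderiv i (wform (pcoefW B c)))) * D (x j) = 0 := h6.symm
        rw [h7, mul_zero]
      have h4 := Finset.sum_eq_zero (s := Finset.univ) fun i _ => h3 i
      simp_rw [mul_add] at h4
      rw [Finset.sum_add_distrib] at h4
      have h5 : ∑ i, u i * ∑ j, eval x (pderiv j (pderiv i (wform (pcoefW B c)))) * D (x j) =
          0 := by
        simp_rw [Finset.mul_sum]
        rw [Finset.sum_comm]
        refine Finset.sum_eq_zero fun j _ => ?_
        rw [← mul_zero (D (x j)), ← hHu j, Finset.mul_sum]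
        exact Finset.sum_congr rfl fun i _ => by ring
      rw [h5, add_zero] at h4
      rw [← h4, hW]
      simp_rw [Finset.mul_sum]
      rw [Finset.sum_comm]
      refine Finset.sum_congr rfl fun i _ => Finset.sum_congr rfl fun t _ => by ring
    exact ⟨-D c, by linear_combination h1, by linear_combination h2⟩
  -- the monomials used
  have hEs : ∀ t : CoefW N e m, t.1 = Finsupp.single (some s) (m * e) → E t = 1 := by
    intro t ht
    rw [hE]; simp only
    rw [ht, ← X_pow_eq_monomial, map_pow, aeval_X, hxs, one_pow]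
  have hfirst : ∀ t : CoefW N e m, IsFirstW t → IsPowW t := fun t ht => ⟨0, ht⟩
  have hmem : ∀ i : Fin (N + 1),
      Finsupp.weight (wt e) (Finsupp.single (some i) (m * e) : Option (Fin (N + 1)) →₀ ℕ) =
        m * e ∧ (Finsupp.single (some i) (m * e) : Option (Fin (N + 1)) →₀ ℕ) none < m := by
    intro i
    constructor
    · rw [Finsupp.weight_apply, Finsupp.sum_single_index (by simp), wt_some]
      simp
    · rw [Finsupp.single_eq_of_ne (by simp)]
      omega
  obtain ⟨m₀, hm₀⟩ : ∃ m₀ : CoefW N e m, m₀.1 = Finsupp.single (some 0) (m * e) :=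
    ⟨⟨_, hmem 0⟩, rfl⟩
  obtain ⟨ms, hms⟩ : ∃ ms : CoefW N e m, ms.1 = Finsupp.single (some s) (m * e) :=
    ⟨⟨_, hmem s⟩, rfl⟩
  have hEnf : T = 0 → ∀ t : CoefW N e m, ¬ IsFirstW t → E t = 0 := by
    intro hT0 t ht
    obtain ⟨τ, hτ, -⟩ := key ⟨t, ht⟩
    rw [hT0, mul_zero] at hτ
    exact hτ
  have hT0 : T ≠ 0 := by
    intro hT0
    by_cases hs : s = 0
    · have h1 : T = E m₀ := by
        rw [hT, Finset.sum_eq_single m₀]
        · rw [if_pos (hfirst m₀ hm₀)]
        · intro t _ ht
          have h2 : ¬ IsFirstW t := fun h => ht (Subtype.ext (h.trans hm₀.symm))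
          rw [hEnf hT0 t h2, ite_self]
        · intro h; exact absurd (Finset.mem_univ _) h
      rw [hEs m₀ (by rw [hm₀, hs]), hT0] at h1
      exact zero_ne_one h1
    · have h1 : ¬ IsFirstW ms := by
        intro h
        have h2 : (Finsupp.single (some s) (m * e) : Option (Fin (N + 1)) →₀ ℕ) =
            Finsupp.single (some 0) (m * e) := hms.symm.trans h
        rcases Finsupp.single_eq_single_iff _ _ _ _ |>.mp h2 with ⟨h3, -⟩ | ⟨h3, -⟩
        · exact hs (Option.some_injective _ h3)
        · omega
      have h3 := hEnf hT0 ms h1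
      rw [hEs ms hms] at h3
      exact one_ne_zero h3
  have hall : ∀ t : CoefW N e m, W t * T = TW * E t := by
    have h1 : ∀ t : CoefW N e m, ¬ IsFirstW t → W t * T = TW * E t := by
      intro t ht
      obtain ⟨τ, ht1, ht2⟩ := key ⟨t, ht⟩
      have ht1' : E t = τ * T := ht1
      have ht2' : W t = τ * TW := ht2
      rw [ht1', ht2']
      ring
    intro t
    by_cases ht : IsFirstW t
    · have h2 : ∑ t', (if IsPowW t' then (W t' * T - TW * E t') else 0) = 0 := by
        have h3 : ∀ t' : CoefW N e m, (if IsPowW t' then (W t' * T - TW * E t') else 0) =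
            (if IsPowW t' then W t' else 0) * T - TW * (if IsPowW t' then E t' else 0) := by
          intro t'
          by_cases h : IsPowW t'
          · rw [if_pos h, if_pos h, if_pos h]
          · rw [if_neg h, if_neg h, if_neg h]; ring
        rw [Finset.sum_congr rfl fun t' _ => h3 t', Finset.sum_sub_distrib, ← Finset.sum_mul,
          ← Finset.mul_sum, ← hTW, ← hT]
        ring
      rw [Finset.sum_eq_single t] at h2
      · rw [if_pos (hfirst t ht)] at h2
        exact sub_eq_zero.mp h2
      · intro t' _ ht'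
        have h4 : ¬ IsFirstW t' := fun h => ht' (Subtype.ext (h.trans ht.symm))
        rw [h1 t' h4, sub_self, ite_self]
      · intro h; exact absurd (Finset.mem_univ _) h
    · exact h1 t ht
  -- `TW = 0`
  have hpdX : ∀ (n : ℕ) (i : Option (Fin (N + 1))),
      u i * aeval x (pderiv i (X (some s) ^ n : MvPolynomial _ ℤ)) = 0 := by
    intro n i
    by_cases h : i = some s
    · rw [h, hus, zero_mul]
    · rw [pderiv_pow, pderiv_X_of_ne (Ne.symm h), mul_zero, map_zero, mul_zero]
  have hTW0 : TW = 0 := by
    have h1 := hall ms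
    rw [hEs ms hms, mul_one] at h1
    rw [← h1]
    have h2 : W ms = 0 := by
      rw [hW]
      simp only
      refine Finset.sum_eq_zero fun i _ => ?_
      rw [hms, ← X_pow_eq_monomial]
      exact hpdX (m * e) i
    rw [h2, zero_mul]
  have hWall : ∀ t : CoefW N e m, W t = 0 := by
    intro t
    have h1 := hall t
    rw [hTW0, zero_mul] at h1
    exact (mul_eq_zero.mp h1).resolve_right hT0
  apply hu₀
  funext j
  have hwj : wt e j.1 ≤ m * e := by
    rcases j.1 with _ | i
    · rw [wt_none]; nlinarith
    · rw [wt_some]; omega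
  have hmj : Finsupp.weight (wt e) (Finsupp.single (some s) (m * e - wt e j.1) +
      Finsupp.single j.1 1 : Option (Fin (N + 1)) →₀ ℕ) = m * e ∧
      (Finsupp.single (some s) (m * e - wt e j.1) +
      Finsupp.single j.1 1 : Option (Fin (N + 1)) →₀ ℕ) none < m := by
    constructor
    · rw [map_add, Finsupp.weight_apply, Finsupp.sum_single_index (by simp), wt_some,
        Finsupp.weight_apply, Finsupp.sum_single_index (by simp)]
      simp only [smul_eq_mul]
      omega
    · rw [Finsupp.add_apply, Finsupp.single_eq_of_ne (by simp), zero_add, Finsupp.single_apply]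
      split_ifs <;> omega
  have h1 := hWall ⟨_, hmj⟩
  have h2 : (monomial (Finsupp.single (some s) (m * e - wt e j.1) +
      Finsupp.single j.1 1 : Option (Fin (N + 1)) →₀ ℕ) (1 : ℤ)) =
      X (some s) ^ (m * e - wt e j.1) * X j.1 := by
    rw [X_pow_eq_monomial, X, monomial_mul, mul_one]
  rw [hW] at h1
  simp only at h1
  rw [h2] at h1
  have h3 : ∀ i, u i * aeval x (pderiv i (X (some s) ^ (m * e - wt e j.1) * X j.1 :
      MvPolynomial _ ℤ)) = if i = j.1 then u i else 0 := by
    intro i
    rw [pderiv_mul, map_add, map_mul, map_mul, mul_add, ← mul_assoc, hpdX, zero_mul, zero_add,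
      map_pow, aeval_X, hxs, one_pow, one_mul]
    by_cases h : i = j.1
    · rw [if_pos h, h, pderiv_X_self, map_one, mul_one]
    · rw [if_neg h, pderiv_X_of_ne (Ne.symm h), map_zero, mul_zero]
  rw [Finset.sum_congr rfl fun i _ => h3 i, Finset.sum_ite_eq', if_pos (Finset.mem_univ _)] at h1
  rw [hu] at h1
  simp only at h1
  rw [dif_pos j.2] at h1
  exact h1

end Pool.Agent.K3h64.NW
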